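import Pool.Agent.Run7.h32.Tu.EE
import Pool.Agent.Run7.h32.Tu.DecayU

/-!
# The energy equality for the dyadic model of the Navier-Stokes equations on a tree

The nodes are the finite words over `D` letters: the root is `[]`, the children of the node `j` are
the nodes `i :: j`, and the generation of `j` is its length `|j|`, so that there are `D ^ n` nodes in
the generation `n`; they stand for the dyadic cubes of the side `2 ^ (-n)` if `D = 2 ^ d`. The model
(Katz-Pavlović 2005) is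

`X_j' = 2^(β (|j|-1)) X_{parent of j}² - 2^(β |j|) X_j ∑_{k child of j} X_k - ν 4^|j| X_j`.

The nonlinear term preserves the energy `∑ X_j²` formally. The Navier-Stokes equations in the
dimension `d` correspond to `D = 2^d` and `β = 1 + d/2`, that is, `D = 8` and `β = 5/2` for `d = 3`.
With `D = 1` the tree is the chain of the shell model. For `β ≤ 3` all the solutions with the energy
inequality (from the time zero only) satisfy the energy equality. For nonnegative data and
`β > log₂(D)/2` the energy is at most `C / t²`, with `C` independent of the viscosity and of the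
data, so that for `β ≤ 3` the viscosity dissipates all but `C / t²` of the energy up to the time
`t`, however small it is. For `β > 3 + log₂(D)/2` the energy equality fails for all nonnegative
data with a large Reynolds number, and almost all the energy is lost without being dissipated by
the viscosity.
-/

set_option autoImplicit false

open MeasureTheory Set

namespace Pool.Agent.Results.MP_a38b17_an.EnergyEqualityThreshold

/-- The right hand side of the dyadic model on the tree. -/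
noncomputable def treeRhs {D : ℕ} (β ν : ℝ) (y : List (Fin D) → ℝ) : List (Fin D) → ℝ
  | [] => -(y [] * ∑ i, y [i]) - ν * y []
  | i :: j => (2 : ℝ) ^ (β * j.length) * y j ^ 2
      - (2 : ℝ) ^ (β * (j.length + 1)) * (y (i :: j) * ∑ k, y (k :: i :: j))
      - ν * 4 ^ (j.length + 1) * y (i :: j)

/-- `X` is a (componentwise) solution on `[0, ∞)` with the initial value `x`. -/
structure IsSolution {D : ℕ} (β ν : ℝ) (x : List (Fin D) → ℝ) (X : List (Fin D) → ℝ → ℝ) :
    Prop where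
  initial : ∀ j, X j 0 = x j
  equation : ∀ j t, 0 ≤ t → HasDerivWithinAt (X j) (treeRhs β ν (fun k => X k t) j) (Ici 0) t

/-- The energy inequality from the time `s`: `X(s)` is square summable and
`∑_{j ∈ F} X_j(t)² + 2 ν ∫_s^t ∑_{j ∈ F} 4^|j| X_j² ≤ ∑ X_j(s)²` for all `t ≥ s` and all finite sets
`F` of nodes. -/
def EnergyInequality {D : ℕ} (ν : ℝ) (X : List (Fin D) → ℝ → ℝ) (s : ℝ) : Prop :=
  Summable (fun j => X j s ^ 2) ∧ ∀ t, s ≤ t → ∀ F : Finset (List (Fin D)),
    ∑ j ∈ F, X j t ^ 2 + 2 * ν * ∫ r in s..t, ∑ j ∈ F, 4 ^ j.length * X j r ^ 2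
      ≤ ∑' j, X j s ^ 2

/-- A Leray-Hopf solution with the initial value `x`: the energy inequality holds from the time
`0` and from almost every positive time. -/
structure IsLerayHopf {D : ℕ} (β ν : ℝ) (x : List (Fin D) → ℝ) (X : List (Fin D) → ℝ → ℝ) :
    Prop where
  solution : IsSolution β ν x X
  energy_zero : EnergyInequality ν X 0
  energy_ae : ∀ᵐ s : ℝ, 0 < s → EnergyInequality ν X s

/-- The energy equality `∑ X_j(t)² + 2 ν ∫_0^t ∑ 4^|j| X_j² = ∑ X_j(0)²` for all `t ≥ 0`. -/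
def EnergyEquality {D : ℕ} (ν : ℝ) (X : List (Fin D) → ℝ → ℝ) : Prop :=
  ∀ t, 0 ≤ t → HasSum (fun j => X j t ^ 2 + 2 * ν * ∫ r in (0 : ℝ)..t, 4 ^ j.length * X j r ^ 2)
    (∑' j, X j 0 ^ 2)

open Pool.Agent.Run7.h32.Tr Pool.Agent.Run7.h32.Tu

variable {D : ℕ} {β ν : ℝ} {x : List (Fin D) → ℝ} {X : List (Fin D) → ℝ → ℝ}

lemma rhs_eq (β ν : ℝ) (y : List (Fin D) → ℝ) (j : List (Fin D)) :
    treeRhs β ν y j = trhs β ν y j := by
  cases j with
  | nil =>
    simp only [treeRhs, trhs, inp, ch, List.length_nil, Nat.cast_zero, mul_zero, Real.rpow_zero,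
      pow_zero]
    ring
  | cons i j =>
    simp only [treeRhs, trhs, inp, ch, List.length_cons]
    push_cast
    ring

lemma sol_iff : IsSolution β ν x X ↔ Sol0 β ν x X := by
  constructor
  · intro h
    exact ⟨h.initial, fun j t ht => by
      rw [add_zero, ← rhs_eq]
      exact h.equation j t ht⟩
  · intro h
    exact ⟨h.init, fun j t ht => by
      have := h.ode j t ht
      rw [add_zero] at this
      rw [rhs_eq]
      exact this⟩

lemma ei_iff {s : ℝ} (hν : 0 < ν) (hs : 0 ≤ s) (hX : Sol0 β ν x X) :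
    EnergyInequality ν X s ↔ EI ν X s := by
  constructor
  · intro h
    exact ⟨h.1, fun t ht N => h.2 t ht _⟩
  · intro h
    refine ⟨h.1, fun t ht F => ?_⟩
    have h1 := h.2 t ht (F.sup List.length)
    have hsub : F ⊆ tre D (F.sup List.length) := fun j hj =>
      mem_tre.2 (Finset.le_sup (f := List.length) hj)
    have h2 : ∑ j ∈ F, X j t ^ 2 ≤ ∑ j ∈ tre D (F.sup List.length), X j t ^ 2 :=
      Finset.sum_le_sum_of_subset_of_nonneg hsub fun _ _ _ => sq_nonneg _
    have hc : ∀ F' : Finset (List (Fin D)), IntervalIntegrable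
        (fun r => ∑ j ∈ F', (4 : ℝ) ^ j.length * X j r ^ 2) volume s t := by
      intro F'
      refine ContinuousOn.intervalIntegrable ?_
      rw [uIcc_of_le ht]
      have h : ContinuousOn (fun r => ∑ j ∈ F', (4 : ℝ) ^ j.length * X j r ^ 2) (Icc 0 t) :=
        continuousOn_finsetSum _ fun j _ => continuousOn_const.mul ((hX.cont j).pow 2)
      exact h.mono fun r hr => ⟨hs.trans hr.1, hr.2⟩
    have h3 : ∫ r in s..t, ∑ j ∈ F, (4 : ℝ) ^ j.length * X j r ^ 2
        ≤ ∫ r in s..t, ∑ j ∈ tre D (F.sup List.length), (4 : ℝ) ^ j.length * X j r ^ 2 :=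
      intervalIntegral.integral_mono_on ht (hc _) (hc _) fun r _ =>
        Finset.sum_le_sum_of_subset_of_nonneg hsub fun _ _ _ => by positivity
    have h4 := mul_le_mul_of_nonneg_left h3 (by positivity : 0 ≤ 2 * ν)
    linarith

lemma lh_iff (hν : 0 < ν) : IsLerayHopf β ν x X ↔ LH β ν x X := by
  constructor
  · intro h
    have h1 := sol_iff.1 h.solution
    refine ⟨h1, (ei_iff hν le_rfl h1).1 h.energy_zero, ?_⟩
    filter_upwards [h.energy_ae] with s hs hs0
    exact (ei_iff hν hs0.le h1).1 (hs hs0)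
  · intro h
    refine ⟨sol_iff.2 h.sol, (ei_iff hν le_rfl h.sol).2 h.en0, ?_⟩
    filter_upwards [h.en] with s hs hs0
    exact (ei_iff hν hs0.le h.sol).2 (hs hs0)

lemma cond (hD : 0 < D) (β : ℝ) :
    ((2 : ℝ) ^ β) ^ 2 ≤ D * 64 ↔ β ≤ 3 + Real.logb 2 D / 2 := by
  have hD' : (0 : ℝ) < D := by exact_mod_cast hD
  have h1 : ((2 : ℝ) ^ β) ^ 2 = 2 ^ (2 * β) := by
    rw [mul_comm, Real.rpow_mul two_pos.le]
    norm_num
  have h2 : (D : ℝ) * 64 = 2 ^ (Real.logb 2 D + 6) := by
    rw [Real.rpow_add two_pos, Real.rpow_logb two_pos (by norm_num) hD']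
    norm_num
  rw [h1, h2, Real.rpow_le_rpow_left_iff one_lt_two]
  constructor <;> intro h <;> linarith

/-- the partial sums over arbitrary finite sets of nodes -/
lemma fin_le {g : List (Fin D) → ℝ} {C : ℝ} (hg : ∀ j, 0 ≤ g j)
    (h : ∀ N : ℕ, ∑ j ∈ tre D N, g j ≤ C) (F : Finset (List (Fin D))) : ∑ j ∈ F, g j ≤ C :=
  (Finset.sum_le_sum_of_subset_of_nonneg (fun _ hj =>
    mem_tre.2 (Finset.le_sup (f := List.length) hj)) fun j _ _ => hg j).trans
    (h (F.sup List.length))

lemma term_nn {t : ℝ} (hν : 0 < ν) (ht : 0 ≤ t) (j : List (Fin D)) :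
    0 ≤ 2 * ν * ∫ r in (0 : ℝ)..t, (4 : ℝ) ^ j.length * X j r ^ 2 := by
  have h1 : 0 ≤ ∫ r in (0 : ℝ)..t, (4 : ℝ) ^ j.length * X j r ^ 2 :=
    intervalIntegral.integral_nonneg ht fun r _ => by positivity
  positivity

lemma sum_form (hX : Sol0 β ν x X) {t : ℝ} (ht : 0 ≤ t) (F : Finset (List (Fin D))) :
    ∑ j ∈ F, (X j t ^ 2 + 2 * ν * ∫ r in (0 : ℝ)..t, (4 : ℝ) ^ j.length * X j r ^ 2)
      = ∑ j ∈ F, X j t ^ 2
        + 2 * ν * ∫ r in (0 : ℝ)..t, ∑ j ∈ F, (4 : ℝ) ^ j.length * X j r ^ 2 := by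
  rw [Finset.sum_add_distrib, ← Finset.mul_sum, intervalIntegral.integral_finsetSum]
  intro j _
  refine ContinuousOn.intervalIntegrable ?_
  rw [uIcc_of_le ht]
  exact continuousOn_const.mul ((hX.cont j).pow 2)

lemma cond1 (hD : 0 < D) (h : Real.logb 2 D / 2 < β) : (D : ℝ) < ((2 : ℝ) ^ β) ^ 2 := by
  have hD' : (0 : ℝ) < D := by exact_mod_cast hD
  have h1 : ((2 : ℝ) ^ β) ^ 2 = 2 ^ (2 * β) := by
    rw [mul_comm, Real.rpow_mul two_pos.le]
    norm_num
  have h2 : (D : ℝ) = 2 ^ (Real.logb 2 D) := by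
    rw [Real.rpow_logb two_pos (by norm_num) hD']
  rw [h1, h2, Real.rpow_lt_rpow_left_iff one_lt_two]
  linarith

/-- Let `D ≥ 1` and `β` real.
1. For `ν > 0` every square summable real family `x` is the initial value of a Leray-Hopf solution.
2. If `β ≤ 3`, then every solution with the energy inequality from the time `0` satisfies the energy
   equality (real data, no sign condition).
3. If `β ≤ 3 + log₂(D) / 2`, then this holds for all the initial values with `x_j = O(2^(-s |j|))`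
   for some `s > max (0, β - 2)`.
4. If `β > log₂(D) / 2`, then there is `C > 0` such that, for all `ν > 0` and all nonnegative and
   square summable `x`, every solution `X` satisfies `∑ X_j(t)² ≤ C / t²` for all `t > 0`; hence, if
   `β ≤ 3`, the energy dissipated by the viscosity up to the time `t` is at least `∑ x_j² - C / t²`,
   for every viscosity.
5. If `β > 3 + log₂(D) / 2` and `ε > 0`, then there are `c, T > 0` such that, for all `ν > 0`,
   `R ≥ c ν` and all nonnegative `x` with `∑ x_j² = R²`, every solution `X` satisfies the energy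
   inequality from every time, violates the energy equality, and has the energy and the dissipated
   energy together at most `ε R²` from the time `T / R` on. -/
theorem result (D : ℕ) (hD : 0 < D) (β : ℝ) :
    (∀ ν > 0, ∀ x : List (Fin D) → ℝ, Summable (fun j => x j ^ 2) → ∃ X, IsLerayHopf β ν x X) ∧
    (β ≤ 3 → ∀ ν > 0, ∀ (x : List (Fin D) → ℝ) (X : List (Fin D) → ℝ → ℝ), IsSolution β ν x X →
      EnergyInequality ν X 0 → EnergyEquality ν X) ∧
    (β ≤ 3 + Real.logb 2 D / 2 → ∀ ν > 0, ∀ (x : List (Fin D) → ℝ) (s : ℝ), 0 < s → β - 2 < s →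
      (∃ K, ∀ j : List (Fin D), (2 : ℝ) ^ (s * j.length) * |x j| ≤ K) →
      ∀ X : List (Fin D) → ℝ → ℝ, IsSolution β ν x X → EnergyInequality ν X 0 →
        EnergyEquality ν X) ∧
    (Real.logb 2 D / 2 < β → ∃ C > 0, ∀ ν > 0, ∀ x : List (Fin D) → ℝ, (∀ j, 0 ≤ x j) →
      Summable (fun j => x j ^ 2) → ∀ X : List (Fin D) → ℝ → ℝ, IsSolution β ν x X → ∀ t > 0,
        (Summable fun j => X j t ^ 2) ∧ ∑' j, X j t ^ 2 ≤ C / t ^ 2 ∧
        (β ≤ 3 → (Summable fun j => 2 * ν * ∫ r in (0 : ℝ)..t, 4 ^ j.length * X j r ^ 2) ∧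
          ∑' j, x j ^ 2 - C / t ^ 2
            ≤ ∑' j, 2 * ν * ∫ r in (0 : ℝ)..t, 4 ^ j.length * X j r ^ 2)) ∧
    (3 + Real.logb 2 D / 2 < β → ∀ ε > 0, ∃ c > 0, ∃ T > 0, ∀ ν > 0, ∀ R, c * ν ≤ R →
      ∀ x : List (Fin D) → ℝ, (∀ j, 0 ≤ x j) → HasSum (fun j => x j ^ 2) (R ^ 2) →
      ∀ X : List (Fin D) → ℝ → ℝ, IsSolution β ν x X →
        (∀ s, 0 ≤ s → EnergyInequality ν X s) ∧ ¬ EnergyEquality ν X ∧
        ∀ t, T / R ≤ t → ∀ F : Finset (List (Fin D)), ∑ j ∈ F, (X j t ^ 2
          + 2 * ν * ∫ r in (0 : ℝ)..t, 4 ^ j.length * X j r ^ 2) ≤ ε * R ^ 2) := by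
  refine ⟨?_, ?_, ?_, ?_, ?_⟩
  · intro ν hν x hx
    obtain ⟨X, hX⟩ := exist_lh β hν hx
    exact ⟨X, (lh_iff hν).2 hX⟩
  · intro hβ ν hν x X hX h0 t ht
    have hX' := sol_iff.1 hX
    exact ee_tree hD hβ hν hX' ((ei_iff hν le_rfl hX').1 h0) ht
  · rintro hβ ν hν x s hs hs2 ⟨K, hK⟩ X hX h0 t ht
    have hX' := sol_iff.1 hX
    exact ee_dec hD ((cond hD β).2 hβ) hν hs hs2 hK hX' ((ei_iff hν le_rfl hX').1 h0) ht
  · intro hβ
    obtain ⟨C, hC, hd⟩ := decay_univ (β := β) hD (cond1 hD hβ)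
    refine ⟨C, hC, fun ν hν x hx0 hx X hX t ht => ?_⟩
    have hX' := sol_iff.1 hX
    obtain ⟨hs, hle⟩ := tsum_bdT (fun j => sq_nonneg (X j t)) (hd ν hν x X hx0 hx hX' t ht)
    refine ⟨hs, hle, fun hβ3 => ?_⟩
    have h1 := ee_tree hD hβ3 hν hX' (ei_nn hx0 hx hX') ht.le
    have h2 : ∑' j, X j 0 ^ 2 = ∑' j, x j ^ 2 := tsum_congr fun j => by rw [hX.initial j]
    rw [h2] at h1
    have h3 := h1.sub hs.hasSum
    simp only [add_sub_cancel_left] at h3
    refine ⟨h3.summable, ?_⟩
    rw [h3.tsum_eq]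
    linarith
  · intro hβ ε hε
    have hβ' : D * 64 < ((2 : ℝ) ^ β) ^ 2 := by
      by_contra h
      exact absurd ((cond hD β).1 (not_lt.1 h)) (not_le.2 hβ)
    have hm : 0 < min ε (1 / 2) := lt_min hε (by norm_num)
    obtain ⟨c, hc, T, hT, hl⟩ := loss_re (β := β) hD hβ' hm
    refine ⟨c, hc, T, hT, fun ν hν R hR x hx0 hx X hX => ?_⟩
    have hR0 : 0 < R := lt_of_lt_of_le (by positivity) hR
    have hX' := sol_iff.1 hX
    have hxN : ∀ N : ℕ, ∑ j ∈ tre D N, x j ^ 2 ≤ R ^ 2 := fun N =>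
      sum_le_hasSum _ (fun _ _ => sq_nonneg _) hx
    have hloss : ∀ t, T / R ≤ t → ∀ F : Finset (List (Fin D)), ∑ j ∈ F, (X j t ^ 2
          + 2 * ν * ∫ r in (0 : ℝ)..t, (4 : ℝ) ^ j.length * X j r ^ 2)
            ≤ min ε (1 / 2) * R ^ 2 := by
      intro t ht F
      have ht0 : 0 ≤ t := le_trans (by positivity) ht
      refine fin_le (fun j => add_nonneg (sq_nonneg _) (term_nn hν ht0 j)) (fun N => ?_) F
      rw [sum_form hX' ht0]
      exact hl ν hν R hR x X hx0 hxN hX' t ht N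
    refine ⟨fun s hs => (ei_iff hν hs hX').2 (ei_nn_all hν hx0 hx.summable hX' hs), ?_, ?_⟩
    · intro hEE
      have h1 := hEE (T / R) (by positivity)
      have h2 : ∑' j, X j 0 ^ 2 = R ^ 2 := by
        rw [← hx.tsum_eq]
        exact tsum_congr fun j => by rw [hX.initial j]
      rw [h2] at h1
      have h3 : R ^ 2 ≤ 1 / 2 * R ^ 2 := by
        refine hasSum_le_of_sum_le h1 fun F => ?_
        exact (hloss (T / R) le_rfl F).trans
          (mul_le_mul_of_nonneg_right (min_le_right _ _) (by positivity))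
      have h4 : 0 < R ^ 2 := by positivity
      linarith
    · intro t ht F
      exact (hloss t ht F).trans (mul_le_mul_of_nonneg_right (min_le_left _ _) (by positivity))

end Pool.Agent.Results.MP_a38b17_an.EnergyEqualityThreshold
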