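import Pool.Agent.Run7.h507.FD.Fin

/-!
The three-dimensional Navier-Stokes equations on the torus, reduced to a random fractal set of
Fourier modes.

A divergence-free field `u(t, x) = ∑ a(t, k) exp (i k·x)` solves the Navier-Stokes equations with
dissipation `ν (-Δ)^α` if and only if
`a(k)' = - ν |k|^(2 α) a(k) - i P_k ∑_{p + q = k} (k·a(p)) a(q)`. In the fractal Fourier decimation
of Frisch, Pomyalov, Procaccia and Ray, each pair `{k, -k}` of frequencies is kept, independently of
the others, with probability of the order `|k|^(d-3)`, so that the number of the modes kept in a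
ball of radius `R` is of the order `R^d`; all other modes are removed, and all interactions between
the modes kept are unchanged. The reduced equations are these equations for the `k` in the random
set `𝒟` of the modes kept, for fields whose coefficients vanish outside of `𝒟`.

Almost surely, for `α > 1/2` and `α > (3 d - 4)/4` (in particular for the classical dissipation
`α = 1` and every `d < 8/3`), the reduced equations have for all data in `L²` exactly one weak
solution; it is smooth for positive times, continuous in `L²` at time zero, satisfies the energy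
equality, and is smooth up to time zero if the data are smooth.
-/

set_option autoImplicit false

open MeasureTheory ProbabilityTheory Set Filter Topology

namespace Pool.Agent.Results.MP_a38b17_an.FractalDecimation

/-- Frequencies. -/
abbrev K3 := Fin 3 → ℤ

/-- Complex vectors. -/
abbrev C3 := Fin 3 → ℂ

/-- The squared Euclidean length of a frequency. -/
noncomputable def sq (k : K3) : ℝ := ∑ j, (k j : ℝ) ^ 2

/-- The Euclidean length of a frequency. -/
noncomputable def len (k : K3) : ℝ := Real.sqrt (sq k)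

/-- The squared Euclidean length of a complex vector. -/
noncomputable def nsq (v : C3) : ℝ := ∑ i, ‖v i‖ ^ 2

/-- The scalar product of a frequency and a complex vector. -/
noncomputable def dot (k : K3) (v : C3) : ℂ := ∑ j, (k j : ℂ) * v j

/-- The orthogonal projection of a complex vector to the complement of `k` (the identity for
`k = 0`). -/
noncomputable def proj (k : K3) (v : C3) : C3 := fun i => v i - (k i : ℂ) * (dot k v / (sq k : ℂ))

/-- The Fourier coefficient at `k` of the divergence-free part of `(u·∇) u`, for the divergence-free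
field `u(x) = ∑ a(p) exp (i p·x)`. -/
noncomputable def conv (a : K3 → C3) (k : K3) : C3 :=
  Complex.I • proj k (∑' p : K3, dot k (a p) • a (k - p))

/-- The coefficients of a real divergence-free field. -/
def IsField (a : K3 → C3) : Prop :=
  (∀ k i, a (-k) i = (starRingEnd ℂ) (a k i)) ∧ ∀ k, dot k (a k) = 0

/-- The coefficients of a smooth field. -/
def IsSmooth (a : K3 → C3) : Prop := ∀ m : ℕ, ∃ C : ℝ, ∀ k, len k ^ m * ‖a k‖ ≤ C

/-- Weak solutions on the time interval `[0, T]`, with initial value `c`, of the Navier-Stokes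
equations with dissipation `ν (-Δ)^α` reduced to the modes in `𝒟`: at every time the coefficients of
a real divergence-free field, which vanish outside of `𝒟`; every coefficient is continuous in time;
the energy is bounded, and the field is square integrable in time with values in `H^α`; the
equations for the modes in `𝒟` hold, integrated in time. -/
structure IsWeak (𝒟 : Set K3) (ν α T : ℝ) (c : K3 → C3) (a : ℝ → K3 → C3) : Prop where
  field : ∀ t ∈ Icc 0 T, IsField (a t)
  supp : ∀ t ∈ Icc 0 T, ∀ k ∉ 𝒟, a t k = 0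
  cont : ∀ k, ContinuousOn (fun t => a t k) (Icc 0 T)
  energy : ∃ E : ℝ, ∀ t ∈ Icc 0 T, ∀ F : Finset K3, ∑ k ∈ F, nsq (a t k) ≤ E
  dissipation : ∃ E : ℝ, ∀ F : Finset K3, ∫ s in (0 : ℝ)..T, ∑ k ∈ F, sq k ^ α * nsq (a s k) ≤ E
  eqn : ∀ t ∈ Icc 0 T, ∀ k ∈ 𝒟,
    a t k = c k - ∫ s in (0 : ℝ)..t, ((ν * sq k ^ α : ℝ) • a s k + conv (a s) k)

/-- Smooth solutions, for the times in the interval `I`, of the reduced equations: at every time the
coefficients of a real divergence-free field, which vanish outside of `𝒟`, decaying faster than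
every power locally uniformly in time, which satisfy the equations for the modes in `𝒟`. -/
structure IsSol (𝒟 : Set K3) (ν α : ℝ) (I : Set ℝ) (a : ℝ → K3 → C3) : Prop where
  field : ∀ t ∈ I, IsField (a t)
  supp : ∀ t ∈ I, ∀ k ∉ 𝒟, a t k = 0
  smooth : ∀ s ∈ I, ∀ t ∈ I, ∀ m : ℕ, ∃ C : ℝ, ∀ τ ∈ Icc s t, ∀ k, len k ^ m * ‖a τ k‖ ≤ C
  eqn : ∀ t ∈ I, ∀ k ∈ 𝒟, HasDerivWithinAt (fun s => a s k)
    (-((ν * sq k ^ α : ℝ) • a t k) - conv (a t) k) I t

/-- The random set of modes: the nonzero frequencies `k` for which the event of the pair `{k, -k}`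
occurs. -/
def modes {Ω : Type*} (S : Sym2 K3 → Set Ω) (ω : Ω) : Set K3 := {k | k ≠ 0 ∧ ω ∈ S s(k, -k)}

section

variable {𝒟 : Set K3} {ν α : ℝ}

theorem nl_eq (hneg : ∀ k, -k ∈ 𝒟 ↔ k ∈ 𝒟) {a : K3 → C3} (ha : ∀ k ∉ 𝒟, a k = 0) {k : K3}
    (hk : k ∈ 𝒟) : Run7.h507.RT.nl (Run7.h507.FD.dw 𝒟) a a k = conv a k := by
  have h1 : ∀ p, ((Run7.h507.FD.dw 𝒟 p (k - p) : ℂ) * Run7.h507.RT.kd k (a p)) • a (k - p)
      = dot k (a p) • a (k - p) := by
    intro p
    by_cases h2 : p ∈ 𝒟
    · by_cases h3 : k - p ∈ 𝒟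
      · have e : Run7.h507.FD.dw 𝒟 p (k - p) = 1 := Run7.h507.FD.dd_of ⟨h2, h3, by
          show -(p + (k - p)) ∈ 𝒟
          rw [add_sub_cancel]
          exact (hneg k).2 hk⟩
        rw [e, Complex.ofReal_one, one_mul]
        rfl
      · rw [ha _ h3, smul_zero, smul_zero]
    · have e : dot k (a p) = 0 := by
        rw [ha _ h2]
        exact Run7.h507.RT.kd_zero_right k
      have e' : Run7.h507.RT.kd k (a p) = 0 := e
      rw [e, e', mul_zero, zero_smul]
  unfold Run7.h507.RT.nl conv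
  rw [tsum_congr h1]
  rfl

theorem of_isWeak (hneg : ∀ k, -k ∈ 𝒟 ↔ k ∈ 𝒟) {T : ℝ} {c : K3 → C3} (hc : ∀ k ∉ 𝒟, c k = 0)
    {a : ℝ → K3 → C3} (h : IsWeak 𝒟 ν α T c a) : Run7.h507.FD.WI 𝒟 ν α T c a := by
  refine ⟨fun t ht => (h.field t ht).1, fun t ht => (h.field t ht).2, h.cont, h.energy,
    h.dissipation, fun t ht k => ?_⟩
  have hs : ∀ s ∈ uIcc 0 t, s ∈ Icc 0 T := by
    intro s hs
    rw [uIcc_of_le ht.1] at hs
    exact ⟨hs.1, hs.2.trans ht.2⟩
  by_cases hk : k ∈ 𝒟
  · rw [h.eqn t ht k hk]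
    congr 1
    refine intervalIntegral.integral_congr fun s hs' => ?_
    show _ + _ = _ + _
    rw [nl_eq hneg (h.supp s (hs s hs')) hk]
    rfl
  · have e : ∫ s in (0 : ℝ)..t, (Run7.h507.RT.lam ν α k • a s k
        + Run7.h507.RT.nl (Run7.h507.FD.dw 𝒟) (a s) (a s) k) = ∫ s in (0 : ℝ)..t, (0 : C3) := by
      refine intervalIntegral.integral_congr fun s hs' => ?_
      show _ + _ = (0 : C3)
      rw [h.supp s (hs s hs') k hk, Run7.h507.FD.nl_out hneg _ _ hk, smul_zero, add_zero]
    rw [h.supp t ht k hk, hc k hk, e, intervalIntegral.integral_zero, sub_zero]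

theorem isWeak_of (hneg : ∀ k, -k ∈ 𝒟 ↔ k ∈ 𝒟) {T : ℝ} {c : K3 → C3}
    {a : ℝ → K3 → C3} (ha : ∀ t, ∀ k ∉ 𝒟, a t k = 0) (h : Run7.h507.FD.WI 𝒟 ν α T c a) :
    IsWeak 𝒟 ν α T c a := by
  refine ⟨fun t ht => ⟨h.herm t ht, h.div t ht⟩, fun t _ => ha t, h.cont, h.bdd, h.diss,
    fun t ht k hk => ?_⟩
  rw [h.eqn t ht k]
  congr 1
  refine intervalIntegral.integral_congr fun s _ => ?_
  show _ + _ = _ + _
  rw [nl_eq hneg (ha s) hk]
  rfl

theorem isSol_of (hneg : ∀ k, -k ∈ 𝒟 ↔ k ∈ 𝒟) {I : Set ℝ}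
    {a : ℝ → K3 → C3} (ha : ∀ t, ∀ k ∉ 𝒟, a t k = 0)
    (h : Run7.h507.RT.Sol (Run7.h507.FD.dw 𝒟) ν α I a) : IsSol 𝒟 ν α I a := by
  refine ⟨fun t ht => ⟨h.herm t ht, h.div t ht⟩, fun t _ => ha t, h.rapid, fun t ht k hk => ?_⟩
  have h1 := h.der t ht k
  rw [nl_eq hneg (ha t) hk] at h1
  exact h1

end

/-- Let the pairs `{k, -k}` of nonzero frequencies be selected independently, each with probability
at most `C₀ |k|^(d-3)`. Almost surely, the following holds for the set `𝒟` of the selected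
frequencies, for all `α > 1/2` with `α > (3 d - 4)/4` and all `ν > 0`, for the Navier-Stokes
equations with dissipation `ν (-Δ)^α` reduced to the modes in `𝒟`.

For every divergence-free `c` in `L²` with modes in `𝒟` there is a global weak solution `a` with
initial value `c`, and every weak solution on `[0, T]` with initial value `c` agrees with it. It
satisfies the energy equality
`∑ |a(t, k)|² + 2 ∫ ∑ ν |k|^(2 α) |a(τ, k)|² dτ = ∑ |a(s, k)|²` (integral over `s ≤ τ ≤ t`) for all
`0 ≤ s ≤ t`. It is smooth for positive times and converges to `c` in `L²` as `t → 0`. If `c` is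
smooth, then `a` is smooth on `[0, ∞)`. -/
theorem _root_.Pool.Agent.Results.MP_a38b17_an.FractalDecimation.result
    {Ω : Type*} [MeasurableSpace Ω] {P : Measure Ω} [IsProbabilityMeasure P]
    {S : Sym2 K3 → Set Ω} (hm : ∀ l, MeasurableSet (S l)) (hS : iIndepSet S P) {d C₀ : ℝ}
    (hp : ∀ k : K3, k ≠ 0 → P.real (S s(k, -k)) ≤ C₀ * len k ^ (d - 3)) :
    ∀ᵐ ω ∂P, ∀ α ν : ℝ, 1 / 2 < α → (3 * d - 4) / 4 < α → 0 < ν →
      ∀ c, IsField c → (∀ k ∉ modes S ω, c k = 0) → Summable (fun k => nsq (c k)) →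
        ∃ a, (∀ T, IsWeak (modes S ω) ν α T c a) ∧
          (∀ T b, IsWeak (modes S ω) ν α T c b → ∀ t ∈ Icc 0 T, b t = a t) ∧
          (∀ s t, 0 ≤ s → s ≤ t →
            IntervalIntegrable (fun τ => ∑' k, ν * sq k ^ α * nsq (a τ k)) volume s t ∧
            ∑' k, nsq (a t k) + 2 * ∫ τ in s..t, ∑' k, ν * sq k ^ α * nsq (a τ k)
              = ∑' k, nsq (a s k)) ∧
          IsSol (modes S ω) ν α (Ioi 0) a ∧
          Tendsto (fun t => ∑' k, nsq (a t k - c k)) (𝓝[>] 0) (𝓝 0) ∧
          (IsSmooth c → IsSol (modes S ω) ν α (Ici 0) a) := by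
  filter_upwards [Run7.h507.FD.ae_good hm hS hp] with ω hω α ν hα hαd hν c hc hs hc2
  have hneg : ∀ k, -k ∈ modes S ω ↔ k ∈ modes S ω := fun k => Run7.h507.FD.Dm_neg
  obtain ⟨β, h1, h2⟩ := exists_between (max_lt (by linarith) (by linarith) :
    max 1 ((3 * d - 4) / 2) < 2 * α)
  obtain ⟨hS, C, hC, hE⟩ := hω β ((le_max_left _ _).trans_lt h1) ((le_max_right _ _).trans_lt h1)
  have hβ0 : 0 ≤ β := zero_le_one.trans ((le_max_left _ _).trans h1.le)
  obtain ⟨L, e1, e2, e3, e4, e5, _, e7, e8, e9⟩ := Run7.h507.FD.main (D := modes S ω) hneg hν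
    (by linarith) hC hE hβ0 h2 hS hc.1 hc.2 hc2 hs
  rw [← e8] at e9
  refine ⟨L, fun T => isWeak_of hneg e1 (e3 T), fun T b hb t ht => e4 T b (of_isWeak hneg hs hb) t ht,
    fun s t h0s hst => Run7.h507.FD.energy_eq (Run7.h507.FD.isWeight_dw hneg) hν.le (by linarith) e2
      e9 h0s hst, isSol_of hneg e1 e2, e5, fun h => isSol_of hneg e1 (e7 h)⟩

end Pool.Agent.Results.MP_a38b17_an.FractalDecimation
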