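import Pool.Agent.Run7.h507.SP.WS9
import Pool.Agent.Run7.h507.SP.EE4

/-!
The three-dimensional Navier-Stokes equations on the torus with the viscosity `ν` and an additional
dissipation which may act at sparse frequencies only: energy equality for all weak solutions, with a
force, and regularity of all weak solutions, without force.

A divergence-free field `u(t, x) = ∑ a(t, k) exp (i k·x)` solves the Navier-Stokes equations with
the force `f` in which the Laplace operator `- ν Δ` is replaced by the Fourier multiplier with the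
symbol `μ(k)` if and only if
`a(k)' = f(k) - μ(k) a(k) - i P_k ∑_{p + q = k} (k·a(p)) a(q)`, where `P_k` is the projection to the
complement of `k`. All modes and all their interactions are kept.

Let `m(r) = inf {μ(k) : |k| ≥ r}` satisfy `∑ m(N) / N^(7/2) = ∞`, that is
`∫ m(r) / r^(7/2) dr = ∞`. Then every weak solution on `[0, T]` (bounded in `L²`, finite total
dissipation; no energy inequality is assumed), with any initial value in `L²` and any force in
`L²(0, T; L²)`, satisfies the energy equality at all times and is continuous in time with values in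
`L²`. If moreover `μ(k) ≥ ν |k|²` with `ν > 0`, then, without force, every initial value in `L²` has
a global weak solution, and every weak solution is smooth for `t > 0`. It is the only weak solution
if its initial value has one derivative in `L²`, and it is smooth down to `t = 0` if its initial
value is smooth.

For example (see `bands`), the symbol may be `ν |k|²` for all `k` outside the bands
`N_j ≤ |k| ≤ N_j^(5/4)`, if it is at least `κ N_j^(5/2)` on these bands, where `κ > 0` and where the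
sequence `N_j` tends to infinity, however fast.
-/

set_option autoImplicit false

open MeasureTheory Set Filter Topology

namespace Pool.Agent.Results.MP_a38b17_an.SparseRegularity

/-- Frequencies. -/
abbrev K3 := Fin 3 → ℤ

/-- Complex vectors. -/
abbrev C3 := Fin 3 → ℂ

/-- The squared Euclidean length of a frequency. -/
noncomputable def sq (k : K3) : ℝ := ∑ j, (k j : ℝ) ^ 2

/-- The Euclidean length of a frequency. -/
noncomputable def len (k : K3) : ℝ := Real.sqrt (sq k)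

/-- The squared Euclidean length of a complex vector. -/
noncomputable def nsq (v : C3) : ℝ := ∑ i, ‖v i‖ ^ 2

/-- The real part of the scalar product of two complex vectors. -/
noncomputable def rin (v w : C3) : ℝ := ∑ i, (v i * (starRingEnd ℂ) (w i)).re

/-- The scalar product of a frequency and a complex vector. -/
noncomputable def dot (k : K3) (v : C3) : ℂ := ∑ j, (k j : ℂ) * v j

/-- The orthogonal projection of a complex vector to the complement of `k` (the identity for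
`k = 0`). -/
noncomputable def proj (k : K3) (v : C3) : C3 := fun i => v i - (k i : ℂ) * (dot k v / (sq k : ℂ))

/-- The Fourier coefficient at `k` of the divergence-free part of `(u·∇) u`, for the divergence-free
field `u(x) = ∑ a(p) exp (i p·x)`. -/
noncomputable def conv (a : K3 → C3) (k : K3) : C3 :=
  Complex.I • proj k (∑' p : K3, dot k (a p) • a (k - p))

/-- The coefficients of a real divergence-free field. -/
def IsField (a : K3 → C3) : Prop :=
  (∀ k i, a (-k) i = (starRingEnd ℂ) (a k i)) ∧ ∀ k, dot k (a k) = 0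

/-- The coefficients of a smooth field. -/
def IsSmooth (a : K3 → C3) : Prop := ∀ m : ℕ, ∃ C : ℝ, ∀ k, len k ^ m * ‖a k‖ ≤ C

/-- Smooth solutions, for the times in the interval `I`, of the equations with the dissipation `μ`:
at every time the coefficients of a real divergence-free field, decaying faster than every power
locally uniformly in time, which satisfy the equations. -/
structure IsSol (μ : K3 → ℝ) (I : Set ℝ) (a : ℝ → K3 → C3) : Prop where
  field : ∀ t ∈ I, IsField (a t)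
  smooth : ∀ s ∈ I, ∀ t ∈ I, ∀ m : ℕ, ∃ C : ℝ, ∀ τ ∈ Icc s t, ∀ k, len k ^ m * ‖a τ k‖ ≤ C
  eqn : ∀ t ∈ I, ∀ k, HasDerivWithinAt (fun s => a s k) (-(μ k • a t k) - conv (a t) k) I t

/-- The coefficients of a force in `L²(0, T; L²)`, with divergence-free values. -/
structure IsForce (T : ℝ) (f : ℝ → K3 → C3) : Prop where
  field : ∀ t ∈ Icc 0 T, IsField (f t)
  meas : ∀ k, AEStronglyMeasurable (fun t => f t k) (volume.restrict (Ioc 0 T))
  int : ∀ k, IntervalIntegrable (fun t => nsq (f t k)) volume 0 T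
  norm : ∃ E : ℝ, ∀ F : Finset K3, ∫ s in (0 : ℝ)..T, ∑ k ∈ F, nsq (f s k) ≤ E

/-- Weak solutions on `[0, T]`, with initial value `c`, of the Navier-Stokes equations with the
dissipation `μ` and the force `f`: at every time the coefficients of a real divergence-free field;
every coefficient is continuous in time; the energy is bounded, and the total dissipation is
finite; the equations hold, integrated in time. -/
structure IsWeak (μ : K3 → ℝ) (T : ℝ) (f : ℝ → K3 → C3) (c : K3 → C3) (a : ℝ → K3 → C3) : Prop where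
  field : ∀ t ∈ Icc 0 T, IsField (a t)
  cont : ∀ k, ContinuousOn (fun t => a t k) (Icc 0 T)
  energy : ∃ E : ℝ, ∀ t ∈ Icc 0 T, ∀ F : Finset K3, ∑ k ∈ F, nsq (a t k) ≤ E
  dissipation : ∃ E : ℝ, ∀ F : Finset K3, ∫ s in (0 : ℝ)..T, ∑ k ∈ F, μ k * nsq (a s k) ≤ E
  eqn : ∀ t ∈ Icc 0 T, ∀ k,
    a t k = c k + ∫ s in (0 : ℝ)..t, (f s k - μ k • a s k - conv (a s) k)

/-- An example: the condition on `m` holds for a suitable `m` if `μ(k) ≥ ν |k|²` for all `k`, and
if there are infinitely many `N` such that `μ(k) ≥ κ N^(5/2)` on the band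
`N ≤ |k| ≤ N^(5/4)`. -/
theorem bands {μ : K3 → ℝ} {ν κ : ℝ} (hν : 0 < ν) (hμν : ∀ k, ν * sq k ≤ μ k) (hκ : 0 < κ)
    (h : ∀ M : ℕ, ∃ N : ℕ, M ≤ N ∧
      ∀ k, (N : ℝ) ≤ len k → len k ≤ (N : ℝ) ^ (5 / 4 : ℝ) → κ * (N : ℝ) ^ (5 / 2 : ℝ) ≤ μ k) :
    ∃ m : ℝ → ℝ, (∀ r, 0 ≤ m r) ∧ Monotone m ∧ (∀ k, m (len k) ≤ μ k) ∧
      ¬ Summable fun N : ℕ => m N / (N : ℝ) ^ (7 / 2 : ℝ) := by
  have hsq0 : ∀ k : K3, 0 ≤ sq k := fun k => Finset.sum_nonneg fun _ _ => sq_nonneg _
  have hlen : ∀ k : K3, len k ^ 2 = sq k := fun k => Real.sq_sqrt (hsq0 k)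
  have hμ0 : ∀ k, 0 ≤ μ k := fun k => (mul_nonneg hν.le (hsq0 k)).trans (hμν k)
  have hne : ∀ r : ℝ, Nonempty {k : K3 // r ≤ len k} := by
    intro r
    obtain ⟨n, hn⟩ := exists_nat_ge r
    refine ⟨⟨fun _ => (n : ℤ), hn.trans ?_⟩⟩
    refine Real.le_sqrt_of_sq_le ?_
    unfold sq
    rw [Fin.sum_univ_three]
    push_cast
    nlinarith [sq_nonneg (n : ℝ)]
  have hbd : ∀ r : ℝ, BddBelow (range fun k : {k : K3 // r ≤ len k} => μ k) := fun r =>
    ⟨0, by rintro _ ⟨k, rfl⟩; exact hμ0 _⟩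
  set m : ℝ → ℝ := fun r => ⨅ k : {k : K3 // r ≤ len k}, μ k with hm
  have hm0 : ∀ r, 0 ≤ m r := fun r => Real.iInf_nonneg fun k => hμ0 _
  have hmono : Monotone m := by
    intro r r' hr
    have := hne r'
    exact le_ciInf fun k => ciInf_le (hbd r) ⟨k.1, hr.trans k.2⟩
  refine ⟨m, hm0, hmono, fun k => ciInf_le (hbd _) ⟨k, le_rfl⟩, fun hs => ?_⟩
  set c := min κ ν with hc
  have hc0 : 0 < c := lt_min hκ hν
  set ε : ℝ := c / (2 : ℝ) ^ (7 / 2 : ℝ) with hε
  have hε0 : 0 < ε := by positivity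
  obtain ⟨M, hM⟩ := eventually_atTop.1 ((tendsto_sum_nat_add fun N : ℕ =>
    m N / (N : ℝ) ^ (7 / 2 : ℝ)).eventually (gt_mem_nhds hε0))
  obtain ⟨N, hN, hNb⟩ := h (max M 1)
  have hN1 : 1 ≤ N := (le_max_right M 1).trans hN
  have hN0 : (0 : ℝ) < N := by exact_mod_cast hN1
  have h1 := hM N ((le_max_left M 1).trans hN)
  have hlow : c * (N : ℝ) ^ (5 / 2 : ℝ) ≤ m N := by
    have := hne N
    refine le_ciInf fun k => ?_
    have p1 : 0 ≤ (N : ℝ) ^ (5 / 2 : ℝ) := Real.rpow_nonneg hN0.le _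
    rcases le_total (len k.1) ((N : ℝ) ^ (5 / 4 : ℝ)) with h2 | h2
    · exact (mul_le_mul_of_nonneg_right (min_le_left κ ν) p1).trans (hNb k.1 k.2 h2)
    · have h3 : (N : ℝ) ^ (5 / 2 : ℝ) ≤ sq k.1 := by
        rw [← hlen]
        have h4 := pow_le_pow_left₀ (Real.rpow_nonneg hN0.le _) h2 2
        refine le_trans (le_of_eq ?_) h4
        rw [← Real.rpow_natCast, ← Real.rpow_mul hN0.le]
        norm_num
      calc c * (N : ℝ) ^ (5 / 2 : ℝ) ≤ ν * sq k.1 :=
            mul_le_mul (min_le_right _ _) h3 p1 hν.le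
        _ ≤ _ := hμν _
  have hs' : Summable fun j : ℕ => m ((j + N : ℕ) : ℝ) / ((j + N : ℕ) : ℝ) ^ (7 / 2 : ℝ) :=
    (summable_nat_add_iff N).2 hs
  have hg0 : ∀ j : ℕ, 0 ≤ m ((j + N : ℕ) : ℝ) / ((j + N : ℕ) : ℝ) ^ (7 / 2 : ℝ) := fun j =>
    div_nonneg (hm0 _) (Real.rpow_nonneg (Nat.cast_nonneg _) _)
  have h2 := hs'.sum_le_tsum (Finset.range N) fun j _ => hg0 j
  have h3 : ∀ j ∈ Finset.range N, ε / N ≤ m ((j + N : ℕ) : ℝ) / ((j + N : ℕ) : ℝ) ^ (7 / 2 : ℝ) := by
    intro j hj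
    have hj' : j < N := Finset.mem_range.1 hj
    have a1 : (0 : ℝ) < ((j + N : ℕ) : ℝ) := by
      have : 0 < j + N := by omega
      exact_mod_cast this
    have a2 : ((j + N : ℕ) : ℝ) ≤ 2 * N := by
      have : j + N ≤ 2 * N := by omega
      exact_mod_cast this
    have a3 : c * (N : ℝ) ^ (5 / 2 : ℝ) ≤ m ((j + N : ℕ) : ℝ) :=
      hlow.trans (hmono (by push_cast; linarith [Nat.cast_nonneg (α := ℝ) j]))
    have a4 : ((j + N : ℕ) : ℝ) ^ (7 / 2 : ℝ) ≤ (2 : ℝ) ^ (7 / 2 : ℝ) * (N : ℝ) ^ (7 / 2 : ℝ) := by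
      rw [← Real.mul_rpow (by norm_num) hN0.le]
      exact Real.rpow_le_rpow a1.le a2 (by norm_num)
    have a5 : (N : ℝ) ^ (7 / 2 : ℝ) = (N : ℝ) ^ (5 / 2 : ℝ) * N := by
      rw [← Real.rpow_add_one hN0.ne']
      norm_num
    have p1 : 0 < (N : ℝ) ^ (5 / 2 : ℝ) := Real.rpow_pos_of_pos hN0 _
    have p2 : 0 < (2 : ℝ) ^ (7 / 2 : ℝ) := Real.rpow_pos_of_pos (by norm_num) _
    calc ε / N = c * (N : ℝ) ^ (5 / 2 : ℝ) / ((2 : ℝ) ^ (7 / 2 : ℝ) * (N : ℝ) ^ (7 / 2 : ℝ)) := by
          rw [hε, a5]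
          field_simp
      _ ≤ _ := div_le_div₀ (hm0 _) a3 (Real.rpow_pos_of_pos a1 _) a4
  have h4 := Finset.sum_le_sum h3
  rw [Finset.sum_const, Finset.card_range, nsmul_eq_mul, mul_div_cancel₀ _ hN0.ne'] at h4
  have h5 : ∑' j : ℕ, m ((j + N : ℕ) : ℝ) / ((j + N : ℕ) : ℝ) ^ (7 / 2 : ℝ) < ε := h1
  linarith

theorem nl_eq (a : K3 → C3) (k : K3) :
    Run7.h507.RT.nl (Run7.h507.FD.dw univ) a a k = conv a k := by
  have h1 : ∀ p, ((Run7.h507.FD.dw univ p (k - p) : ℂ) * Run7.h507.RT.kd k (a p)) • a (k - p)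
      = dot k (a p) • a (k - p) := by
    intro p
    have e : Run7.h507.FD.dw (univ : Set K3) p (k - p) = 1 :=
      Run7.h507.FD.dd_of ⟨mem_univ _, mem_univ _, mem_univ _⟩
    rw [e, Complex.ofReal_one, one_mul]
    rfl
  unfold Run7.h507.RT.nl conv
  rw [tsum_congr h1]
  rfl

theorem isSol_iff {μ : K3 → ℝ} {I : Set ℝ} {a : ℝ → K3 → C3} :
    IsSol μ I a ↔ Run7.h507.SP.SolM (Run7.h507.FD.dw univ) μ I a := by
  constructor
  · intro h
    refine ⟨fun t ht => (h.field t ht).1, fun t ht => (h.field t ht).2, h.smooth, fun t ht k => ?_⟩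
    rw [nl_eq]
    exact h.eqn t ht k
  · intro h
    refine ⟨fun t ht => ⟨h.herm t ht, h.div t ht⟩, h.rapid, fun t ht k => ?_⟩
    rw [← nl_eq]
    exact h.der t ht k

theorem toWE {μ : K3 → ℝ} {T : ℝ} (hT : 0 ≤ T) {f : ℝ → K3 → C3} {c : K3 → C3}
    {a : ℝ → K3 → C3} (hf : IsForce T f) (h : IsWeak μ T f c a) :
    Run7.h507.SP.WE μ T f c fun t => a (Run7.h507.SP.cl T t) := by
  have hcl := fun t => Run7.h507.SP.cl_mem hT t
  obtain ⟨E, hE⟩ := h.energy
  obtain ⟨E', hE'⟩ := h.dissipation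
  refine ⟨fun t => (h.field _ (hcl t)).1, fun t => (h.field _ (hcl t)).2,
    fun k => Run7.h507.SP.cont_cl hT (h.cont k), ⟨E, fun t F => hE _ (hcl t) F⟩,
    ⟨E', fun F => ?_⟩, fun k => ?_, hf.int, hf.norm, fun t ht k => ?_⟩
  · refine le_trans (le_of_eq ?_) (hE' F)
    refine intervalIntegral.integral_congr fun s hs => ?_
    rw [uIcc_of_le hT] at hs
    simp only [Run7.h507.SP.cl_of hs]
    rfl
  · have h1 : IntervalIntegrable (fun s => 1 + nsq (f s k)) volume 0 T :=
      intervalIntegrable_const.add (hf.int k)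
    rw [intervalIntegrable_iff_integrableOn_Ioc_of_le hT] at h1 ⊢
    refine Integrable.mono h1 (hf.meas k) (Eventually.of_forall fun s => ?_)
    have h2 : ‖f s k‖ ^ 2 ≤ nsq (f s k) := Run7.h507.RT.norm_sq_le_nsq _
    have h3 : 0 ≤ nsq (f s k) := (sq_nonneg _).trans h2
    rw [Real.norm_eq_abs, abs_of_nonneg (by linarith)]
    nlinarith [sq_nonneg (‖f s k‖ - 1), norm_nonneg (f s k)]
  · show a (Run7.h507.SP.cl T t) k = _
    rw [Run7.h507.SP.cl_of ht, h.eqn t ht k]
    congr 1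
    refine intervalIntegral.integral_congr fun s hs => ?_
    rw [uIcc_of_le ht.1] at hs
    have hs' : s ∈ Icc 0 T := ⟨hs.1, hs.2.trans ht.2⟩
    show f s k - μ k • a s k - conv (a s) k = f s k - μ k • a (Run7.h507.SP.cl T s) k
      - Run7.h507.RT.nl (Run7.h507.FD.dw univ) (a (Run7.h507.SP.cl T s))
        (a (Run7.h507.SP.cl T s)) k
    rw [nl_eq, Run7.h507.SP.cl_of hs']

theorem isForce_zero {T : ℝ} : IsForce T fun _ => (0 : K3 → C3) := by
  have hd : ∀ k : K3, dot k (0 : C3) = 0 := fun k => by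
    unfold dot
    simp
  refine ⟨fun t _ => ⟨fun k i => by simp, fun k => hd k⟩, fun k => aestronglyMeasurable_const,
    fun k => intervalIntegrable_const, ⟨0, fun F => ?_⟩⟩
  have h0 : nsq (0 : C3) = 0 := Run7.h507.RT.nsq_zero
  simp only [Pi.zero_apply, h0, Finset.sum_const_zero, intervalIntegral.integral_zero]
  exact le_rfl

theorem ofWE {μ : K3 → ℝ} {T : ℝ} (hT : 0 ≤ T) {c : K3 → C3} {a : ℝ → K3 → C3}
    (h : Run7.h507.SP.WE μ T (fun _ => 0) c fun t => a (Run7.h507.SP.cl T t)) :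
    IsWeak μ T (fun _ => 0) c a := by
  obtain ⟨E, hE⟩ := h.bdd
  obtain ⟨D, hD⟩ := h.diss
  refine ⟨fun t ht => ?_, fun k => ?_, ⟨E, fun t ht F => ?_⟩, ⟨D, fun F => ?_⟩, fun t ht k => ?_⟩
  · have h1 := h.herm t
    have h2 := h.div t
    simp only [Run7.h507.SP.cl_of ht] at h1 h2
    exact ⟨h1, h2⟩
  · refine (h.cont k).continuousOn.congr fun t ht => ?_
    simp only [Run7.h507.SP.cl_of ht]
  · have h1 := hE t F
    simp only [Run7.h507.SP.cl_of ht] at h1
    exact h1
  · refine le_trans (le_of_eq ?_) (hD F)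
    refine intervalIntegral.integral_congr fun s hs => ?_
    rw [uIcc_of_le hT] at hs
    simp only [Run7.h507.SP.cl_of hs]
    rfl
  · have h1 := h.eqn t ht k
    simp only [Run7.h507.SP.cl_of ht] at h1
    rw [h1]
    congr 1
    refine intervalIntegral.integral_congr fun s hs => ?_
    rw [uIcc_of_le ht.1] at hs
    have hs' : s ∈ Icc 0 T := ⟨hs.1, hs.2.trans ht.2⟩
    show (0 : C3) - μ k • a (Run7.h507.SP.cl T s) k
      - Run7.h507.RT.nl (Run7.h507.FD.dw univ) (a (Run7.h507.SP.cl T s))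
        (a (Run7.h507.SP.cl T s)) k = (0 : C3) - μ k • a s k - conv (a s) k
    rw [nl_eq, Run7.h507.SP.cl_of hs']

/-- Let `m` be nonnegative and nondecreasing with `m(|k|) ≤ μ(k)` for all `k` and
`∑ m(N) / N^(7/2) = ∞`.

(1) Every weak solution on `[0, T]`, with initial value `c` and force `f` in `L²(0, T; L²)`,
satisfies the energy equality
`∑ |a(t, k)|² + 2 ∑ μ(k) ∫_0^t |a(s, k)|² ds = ∑ |c(k)|² + 2 ∑ ∫_0^t f(s, k)·a(s, k) ds` at all
times `0 ≤ t ≤ T`, with convergent sums, and is continuous on `[0, T]` with values in `L²`.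

(2) Let moreover `μ(k) = μ(-k) ≥ ν |k|²` grow at most like a power of `|k|`, where `ν > 0`. Then
every real divergence-free field in `L²` is the initial value of a global weak solution without
force, and every weak solution on `[0, T]` without force
* is a smooth solution on `(0, T]`,
* is the only weak solution on `[0, T]` with the initial value `c`, if `∑ (1 + |k|²) |c(k)|² < ∞`,
* is a smooth solution on `[0, T]`, if `c` is smooth. -/
theorem _root_.Pool.Agent.Results.MP_a38b17_an.SparseRegularity.result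
    {μ : K3 → ℝ} {m : ℝ → ℝ} (hm0 : ∀ r, 0 ≤ m r) (hm : Monotone m)
    (hmμ : ∀ k, m (len k) ≤ μ k)
    (hdiv : ¬ Summable fun N : ℕ => m N / (N : ℝ) ^ (7 / 2 : ℝ)) :
    (∀ T f c a, 0 ≤ T → IsForce T f → IsWeak μ T f c a →
      (∀ t ∈ Icc 0 T,
        Summable (fun k => nsq (a t k)) ∧
        Summable (fun k => μ k * ∫ s in (0 : ℝ)..t, nsq (a s k)) ∧
        Summable (fun k => ∫ s in (0 : ℝ)..t, rin (f s k) (a s k)) ∧
        ∑' k, nsq (a t k) + 2 * ∑' k, μ k * ∫ s in (0 : ℝ)..t, nsq (a s k)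
          = ∑' k, nsq (c k) + 2 * ∑' k, ∫ s in (0 : ℝ)..t, rin (f s k) (a s k)) ∧
      ∀ t ∈ Icc 0 T, Tendsto (fun s => ∑' k, nsq (a s k - a t k)) (𝓝[Icc 0 T] t) (𝓝 0)) ∧
    ∀ ν > 0, (∀ k, ν * sq k ≤ μ k) → (∀ k, μ (-k) = μ k) →
      (∃ (n : ℕ) (C : ℝ), ∀ k, μ k ≤ C * (1 + len k) ^ n) →
      (∀ c, IsField c → Summable (fun k => nsq (c k)) →
        ∃ a, ∀ T, 0 ≤ T → IsWeak μ T (fun _ => 0) c a) ∧
      ∀ T c a, 0 ≤ T → IsWeak μ T (fun _ => 0) c a →
        IsSol μ (Ioc 0 T) a ∧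
        (Summable (fun k => (1 + sq k) * nsq (c k)) →
          ∀ b, IsWeak μ T (fun _ => 0) c b → ∀ t ∈ Icc 0 T, b t = a t) ∧
        (IsSmooth c → IsSol μ (Icc 0 T) a) := by
  have hd := Run7.h507.SP.div_of hm0 hm hdiv
  constructor
  · intro T f c a hT hf h
    have hw := toWE hT hf h
    have hμ0 : ∀ k, 0 ≤ μ k := fun k => (hm0 _).trans (hmμ k)
    have hI : ∀ t ∈ Icc 0 T, ∀ s ∈ uIcc 0 t, s ∈ Icc 0 T := by
      intro t ht s hs
      rw [uIcc_of_le ht.1] at hs
      exact ⟨hs.1, hs.2.trans ht.2⟩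
    have e1 : ∀ t ∈ Icc 0 T, ∀ k, ∫ s in (0 : ℝ)..t, nsq (a (Run7.h507.SP.cl T s) k)
        = ∫ s in (0 : ℝ)..t, nsq (a s k) := fun t ht k =>
      intervalIntegral.integral_congr fun s hs => by
        simp only [Run7.h507.SP.cl_of (hI t ht s hs)]
    have e2 : ∀ t ∈ Icc 0 T, ∀ k, ∫ s in (0 : ℝ)..t, rin (f s k) (a (Run7.h507.SP.cl T s) k)
        = ∫ s in (0 : ℝ)..t, rin (f s k) (a s k) := fun t ht k =>
      intervalIntegral.integral_congr fun s hs => by
        simp only [Run7.h507.SP.cl_of (hI t ht s hs)]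
    constructor
    · intro t ht
      obtain ⟨s1, s2⟩ := hw.sums hμ0 ht
      have s3 : Summable fun k => ∫ s in (0 : ℝ)..t, rin (f s k) (a (Run7.h507.SP.cl T s) k) :=
        Summable.of_norm_bounded s2 fun k => hw.abs_force k ht
      have s4 := hw.sn t
      have h1 := hw.energy hm0 hm hmμ hd ht
      simp only [Run7.h507.SP.cl_of ht] at s4 h1
      have s1' : Summable fun k => μ k * ∫ s in (0 : ℝ)..t, nsq (a s k) :=
        s1.congr fun k => by rw [← e1 t ht k]; rfl
      have s3' : Summable fun k => ∫ s in (0 : ℝ)..t, rin (f s k) (a s k) :=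
        s3.congr fun k => by rw [e2 t ht k]
      refine ⟨s4, s1', s3', ?_⟩
      have h2 : ∑' k, μ k * ∫ s in (0 : ℝ)..t, nsq (a s k)
          = ∑' k, μ k * ∫ s in (0 : ℝ)..t, Run7.h507.RT.nsq (a (Run7.h507.SP.cl T s) k) :=
        tsum_congr fun k => by rw [← e1 t ht k]; rfl
      have h3 : ∑' k, ∫ s in (0 : ℝ)..t, rin (f s k) (a s k)
          = ∑' k, ∫ s in (0 : ℝ)..t, Run7.h507.RT.ip (f s k) (a (Run7.h507.SP.cl T s) k) :=
        tsum_congr fun k => by rw [← e2 t ht k]; rfl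
      rw [h2, h3]
      exact h1
    · intro t ht
      have h1 := hw.strong_cont hT hm0 hm hmμ hd ht
      refine h1.congr' ?_
      filter_upwards [self_mem_nhdsWithin] with s hs
      simp only [Run7.h507.SP.cl_of hs, Run7.h507.SP.cl_of ht]
      rfl
  intro ν hν hμν hneg hpoly
  have hl0 : ∀ k : K3, 0 ≤ len k := fun k => Real.sqrt_nonneg _
  have hsq : ∀ k : K3, len k ^ 2 = sq k := fun k =>
    Real.sq_sqrt (Finset.sum_nonneg fun _ _ => sq_nonneg _)
  have hμ : Run7.h507.SP.IsSym μ := by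
    refine ⟨hneg, fun k => (hm0 _).trans (hmμ k), ?_⟩
    obtain ⟨n, C, hC⟩ := hpoly
    refine ⟨n, |C| * 2 ^ n, by positivity, fun k => (hC k).trans ?_⟩
    have h1 : (1 + len k) ^ n ≤ 2 ^ n * Run7.h507.RT.jb k ^ n := by
      rw [← mul_pow]
      refine pow_le_pow_left₀ (by have := hl0 k; linarith) ?_ n
      have h2 : len k ≤ Run7.h507.RT.jb k := Run7.h507.RT.len_le_jb k
      have h3 : 1 ≤ Run7.h507.RT.jb k := Run7.h507.RT.one_le_jb k
      linarith
    calc C * (1 + len k) ^ n ≤ |C| * (1 + len k) ^ n :=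
          mul_le_mul_of_nonneg_right (le_abs_self C) (pow_nonneg (by have := hl0 k; linarith) n)
      _ ≤ |C| * (2 ^ n * Run7.h507.RT.jb k ^ n) := mul_le_mul_of_nonneg_left h1 (abs_nonneg C)
      _ = _ := by ring
  constructor
  · intro c hc hcs
    obtain ⟨L, _, _, h2, _⟩ := Run7.h507.SP.LW hμ hν hμν hm0 hm hmμ hd hc.1 hc.2 hcs
    exact ⟨L, fun T hT => ofWE hT (h2 T hT)⟩
  intro T c a hT h
  have hw := toWE hT isForce_zero h
  refine ⟨?_, ?_, ?_⟩
  · refine isSol_iff.2 ((hw.smooth hμ hν hμν hm0 hm hmμ hd).congr ordConnected_Ioc fun t ht => ?_)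
    rw [Run7.h507.SP.cl_of ⟨ht.1.le, ht.2⟩]
  · intro hs b hb t ht
    have hb' := toWE hT isForce_zero hb
    have h1 := (hb'.strong_of hT hμ hν hμν hm0 hm hmμ hd
      ⟨∑' k, (1 + sq k) * nsq (c k), fun F => ?_⟩).2 _ hw t ht
    · simp only [Run7.h507.SP.cl_of ht] at h1
      exact h1
    · have n1 : ∀ k, 0 ≤ nsq (c k) := fun k => Run7.h507.RT.nsq_nonneg _
      have h0 : ∀ k, 0 ≤ (1 + sq k) * nsq (c k) := fun k => by
        have := hsq k
        have := n1 k
        rw [← hsq k]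
        positivity
      refine le_trans (Finset.sum_le_sum fun k _ => ?_) (hs.sum_le_tsum F fun k _ => h0 k)
      exact mul_le_mul_of_nonneg_right (Run7.h507.SP.jb_sq_le k) (n1 k)
  · intro hs
    refine isSol_iff.2 ((hw.smooth_data hT hμ hν hμν hm0 hm hmμ hdiv hs).congr ordConnected_Icc
      fun t ht => ?_)
    rw [Run7.h507.SP.cl_of ht]

end Pool.Agent.Results.MP_a38b17_an.SparseRegularity
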