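import Pool.Agent.Run7.h32.EE.Eq
import Pool.Agent.Run7.h32.EE.Zero

/-!
# The inviscid limit of the energy balance of the dyadic model (the zeroth law of turbulence)

The dyadic model (Katz-Pavlović, Friedlander-Pavlović, Cheskidov, Barbato-Morandin-Romito) is
`X_n' = 2^(β (n-1)) X_{n-1}² - 2^(β n) X_n X_{n+1} - ν 4^n X_n`, `n ≥ 0`, `X_{-1} = 0`.
For nonnegative square summable data and `β ≥ 5 / 2` the solutions converge in the energy norm,
uniformly in time, when `ν → 0`. The inviscid solution loses all its energy. For `β ≤ 3` the energy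
which it loses is the limit of the energy dissipated by the viscosity; for `β > 3` that limit is
zero.
-/

set_option autoImplicit false

open MeasureTheory Filter Topology

namespace Pool.Agent.Results.MP_a38b17_an.ZerothLaw

/-- The right hand side of the dyadic model. -/
noncomputable def dyadicRhs (β ν : ℝ) (x : ℕ → ℝ) : ℕ → ℝ
  | 0 => -(x 0 * x 1) - ν * x 0
  | n + 1 => (2 : ℝ) ^ (β * n) * x n ^ 2 - (2 : ℝ) ^ (β * (n + 1)) * (x (n + 1) * x (n + 2))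
      - ν * 4 ^ (n + 1) * x (n + 1)

/-- `X` is a (componentwise) solution on `[0, ∞)` with the initial value `x`. -/
structure IsSolution (β ν : ℝ) (x : ℕ → ℝ) (X : ℕ → ℝ → ℝ) : Prop where
  initial : ∀ n, X n 0 = x n
  continuous : ∀ n, ContinuousOn (X n) (Set.Ici 0)
  equation : ∀ n, ∀ t : ℝ, 0 < t → HasDerivAt (X n) (dyadicRhs β ν (fun k => X k t) n) t

/-- The energy `∑ X_n(t)²`. -/
noncomputable def energy (X : ℕ → ℝ → ℝ) (t : ℝ) : ℝ := ∑' n, X n t ^ 2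

/-- The energy `2 ν ∫_0^t ∑ 4^n X_n²` dissipated by the viscosity up to the time `t`. -/
noncomputable def dissipated (ν : ℝ) (X : ℕ → ℝ → ℝ) (t : ℝ) : ℝ :=
  ∑' n, 2 * ν * ∫ r in (0 : ℝ)..t, 4 ^ n * X n r ^ 2

lemma rhs_eq (β ν : ℝ) (x : ℕ → ℝ) (n : ℕ) : dyadicRhs β ν x n = Run7.h969.Dy.rhs β ν x n := by
  cases n <;> rfl

lemma sol_iff {β ν : ℝ} {x : ℕ → ℝ} {X : ℕ → ℝ → ℝ} :
    IsSolution β ν x X ↔ Run7.h969.Dy.IsDy β ν x X := by
  constructor
  · intro h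
    exact ⟨h.initial, h.continuous, fun n t ht => (h.equation n t ht).congr_deriv (rhs_eq _ _ _ _)⟩
  · intro h
    exact ⟨h.init, h.cont, fun n t ht => (h.ode n t ht).congr_deriv (rhs_eq _ _ _ _).symm⟩

lemma part_eq {β ν : ℝ} {x : ℕ → ℝ} {X : ℕ → ℝ → ℝ} (hX : Run7.h969.Dy.IsDy β ν x X) (N : ℕ)
    {t : ℝ} (ht : 0 ≤ t) :
    ∑ n ∈ Finset.range N, (2 * ν * ∫ r in (0 : ℝ)..t, 4 ^ n * X n r ^ 2)
      = 2 * ν * ∫ r in (0 : ℝ)..t, ∑ n ∈ Finset.range N, (4 : ℝ) ^ n * X n r ^ 2 := by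
  rw [← Finset.mul_sum, intervalIntegral.integral_finsetSum]
  intro n _
  refine ContinuousOn.intervalIntegrable ?_
  rw [Set.uIcc_of_le ht]
  exact continuousOn_const.mul (((hX.cont n).mono fun r hr => hr.1).pow 2)

/-- Let `β ≥ 5 / 2`, and let `x` be nonnegative and square summable. For every `ν ≥ 0` there is
exactly one solution `X^ν` with the initial value `x`; its energy and its dissipated energy are
finite, and their sum is at most `∑ x_n²`.
1. The energy of the inviscid solution `X^0` tends to zero when `t → ∞`.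
2. When `ν → 0`, uniformly in `t ≥ 0`: `∑ (X^ν_n - X^0_n)² → 0`; the energy of `X^ν` tends to the
   energy of `X^0`; the dissipated energy of `X^ν` tends to the energy `∑ x_n² - ∑ (X^0_n)²` lost
   by `X^0` if `β ≤ 3`, and to zero if `β > 3`. -/
theorem result {β : ℝ} (hβ : 5 / 2 ≤ β) (x : ℕ → ℝ) (hx0 : ∀ n, 0 ≤ x n)
    (hx : Summable fun n => x n ^ 2) :
    ∃ X : ℝ → ℕ → ℝ → ℝ,
      (∀ ν, 0 ≤ ν → IsSolution β ν x (X ν) ∧
        (∀ Y, IsSolution β ν x Y → ∀ n t, 0 ≤ t → Y n t = X ν n t) ∧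
        ∀ t, 0 ≤ t → Summable (fun n => X ν n t ^ 2) ∧
          Summable (fun n => 2 * ν * ∫ r in (0 : ℝ)..t, 4 ^ n * X ν n r ^ 2) ∧
          energy (X ν) t + dissipated ν (X ν) t ≤ ∑' n, x n ^ 2) ∧
      Tendsto (energy (X 0)) atTop (𝓝 0) ∧
      ∀ ε > 0, ∃ ν₀ > 0, ∀ ν, 0 < ν → ν ≤ ν₀ → ∀ t, 0 ≤ t →
        (Summable (fun n => (X ν n t - X 0 n t) ^ 2) ∧ ∑' n, (X ν n t - X 0 n t) ^ 2 ≤ ε) ∧
        |energy (X ν) t - energy (X 0) t| ≤ ε ∧
        (β ≤ 3 → |dissipated ν (X ν) t - (∑' n, x n ^ 2 - energy (X 0) t)| ≤ ε) ∧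
        (3 < β → dissipated ν (X ν) t ≤ ε) := by
  obtain ⟨E, hE⟩ : ∃ E, E = ∑' n, x n ^ 2 := ⟨_, rfl⟩
  have hEN : ∀ N : ℕ, ∑ n ∈ Finset.range N, x n ^ 2 ≤ E := fun N => by
    rw [hE]
    exact hx.sum_le_tsum _ fun n _ => sq_nonneg _
  have hEs : HasSum (fun n => x n ^ 2) E := hE ▸ hx.hasSum
  have hex : ∀ ν : ℝ, ∃ X : ℕ → ℝ → ℝ, 0 ≤ ν → Run7.h969.Dy.IsDy β ν x X := by
    intro ν
    by_cases hν : 0 ≤ ν
    · obtain ⟨X, hX⟩ := Run7.h32.On.exist_l2' β hν hx0 hx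
      exact ⟨X, fun _ => hX⟩
    · exact ⟨fun _ _ => 0, fun h => absurd h hν⟩
  choose X hX using hex
  have S : ∀ ν, 0 ≤ ν → Run7.h32.On.Sol β ν E x (X ν) := fun ν hν => ⟨hν, hx0, hEN, hX ν hν⟩
  have hpart : ∀ ν, 0 ≤ ν → ∀ t, 0 ≤ t → ∀ N : ℕ, ∑ n ∈ Finset.range N, X ν n t ^ 2
      + ∑ n ∈ Finset.range N, (2 * ν * ∫ r in (0 : ℝ)..t, 4 ^ n * X ν n r ^ 2) ≤ E := by
    intro ν hν t ht N
    rw [part_eq (hX ν hν) N ht]
    refine (Run7.h32.EE.energy_anti (S ν hν) N le_rfl ht).trans ?_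
    have : ∑ n ∈ Finset.range N, X ν n 0 ^ 2 = ∑ n ∈ Finset.range N, x n ^ 2 :=
      Finset.sum_congr rfl fun n _ => by rw [(hX ν hν).init n]
    rw [this]
    exact hEN N
  have hnn : ∀ ν, 0 ≤ ν → ∀ t, 0 ≤ t → ∀ n : ℕ,
      0 ≤ 2 * ν * ∫ r in (0 : ℝ)..t, (4 : ℝ) ^ n * X ν n r ^ 2 := by
    intro ν hν t ht n
    have : 0 ≤ ∫ r in (0 : ℝ)..t, (4 : ℝ) ^ n * X ν n r ^ 2 :=
      intervalIntegral.integral_nonneg ht fun r _ => by positivity
    positivity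
  have hsum : ∀ ν, 0 ≤ ν → ∀ t, 0 ≤ t →
      Summable (fun n => 2 * ν * ∫ r in (0 : ℝ)..t, (4 : ℝ) ^ n * X ν n r ^ 2) := by
    intro ν hν t ht
    refine summable_of_sum_range_le (c := E) (hnn ν hν t ht) fun N => ?_
    have h1 := hpart ν hν t ht N
    have h2 : 0 ≤ ∑ n ∈ Finset.range N, X ν n t ^ 2 := Finset.sum_nonneg fun n _ => sq_nonneg _
    linarith
  refine ⟨X, ?_, ?_, ?_⟩
  · intro ν hν
    refine ⟨sol_iff.2 (hX ν hν), ?_, ?_⟩
    · intro Y hY n t ht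
      have SY : Run7.h32.On.Sol β ν E x Y := ⟨hν, hx0, hEN, sol_iff.1 hY⟩
      exact Run7.h32.On.unique' (by linarith) (S ν hν) SY n t ht
    · intro t ht
      have h1 := Run7.h32.EE.summ (S ν hν) ht
      have h2 := hsum ν hν t ht
      refine ⟨h1, h2, ?_⟩
      simp only [energy, dissipated]
      rw [← h1.tsum_add h2, ← hE]
      refine (h1.add h2).tsum_le_of_sum_range_le fun N => ?_
      rw [Finset.sum_add_distrib]
      exact hpart ν hν t ht N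
  · rw [Metric.tendsto_atTop]
    intro ε hε
    obtain ⟨T, hT1, hT⟩ := Run7.h32.EE.inviscid_decay hβ (S 0 le_rfl) (half_pos hε)
    refine ⟨T, fun t ht => ?_⟩
    have h0 : 0 ≤ t := by linarith
    have h1 : energy (X 0) t ≤ ε / 2 :=
      (Run7.h32.EE.summ (S 0 le_rfl) h0).tsum_le_of_sum_range_le (hT t ht)
    have h2 : 0 ≤ energy (X 0) t := tsum_nonneg fun n => sq_nonneg _
    rw [Real.dist_eq, sub_zero, abs_of_nonneg h2]
    linarith
  · intro ε hε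
    obtain ⟨ν1, hν1, h1⟩ := Run7.h32.EE.limit hβ hEs (S 0 le_rfl) hε
    obtain ⟨ν2, hν2, h2⟩ : ∃ ν2 > 0, 3 < β → ∀ ν, 0 < ν → ν ≤ ν2 → ∀ t, 0 ≤ t →
        dissipated ν (X ν) t ≤ ε := by
      by_cases h3 : 3 < β
      · obtain ⟨μ0, hμ0, T, hT, hl⟩ := Run7.h32.EE.lost h3 hx0 hx hε
        refine ⟨μ0, hμ0, fun _ ν hν hνμ t ht => ?_⟩
        refine (hsum ν hν.le t ht).tsum_le_of_sum_range_le fun N => ?_
        rw [part_eq (hX ν hν.le) N ht]
        have i1 := hl ν (X ν) hνμ (hE ▸ S ν hν.le) (max t T) (le_max_right _ _) N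
        have i2 : 0 ≤ ∑ n ∈ Finset.range N, X ν n (max t T) ^ 2 :=
          Finset.sum_nonneg fun n _ => sq_nonneg _
        have i3 := intervalIntegral.integral_add_adjacent_intervals
          (Run7.h32.EE.ii_diss (hX ν hν.le) N le_rfl ht)
          (Run7.h32.EE.ii_diss (hX ν hν.le) N ht (le_max_left t T))
        have i4 := Run7.h32.EE.diss_nn (X := X ν) N (le_max_left t T)
        rw [← i3] at i1
        have i5 := mul_nonneg hν.le i4
        linarith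
      · exact ⟨1, one_pos, fun h => absurd h h3⟩
    refine ⟨min ν1 ν2, lt_min hν1 hν2, fun ν hν hν0 t ht => ?_⟩
    obtain ⟨i1, i2⟩ := h1 ν (X ν) (hν0.trans (min_le_left _ _)) (S ν hν.le) t ht
    have i3 : Summable (fun n => (X ν n t - X 0 n t) ^ 2) :=
      summable_of_sum_range_le (c := ε) (fun n => sq_nonneg _) i1
    refine ⟨⟨i3, i3.tsum_le_of_sum_range_le i1⟩, i2, fun h3 => ?_,
      fun h3 => h2 h3 ν hν (hν0.trans (min_le_right _ _)) t ht⟩
    -- the energy equality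
    have j1 : Run7.h969.Dz.EI ν (X ν) 0 := by
      have j0 := Run7.h32.EE.summ (S ν hν.le) le_rfl
      exact ⟨j0, fun t ht N => (Run7.h32.EE.energy_anti (S ν hν.le) N le_rfl ht).trans
        (j0.sum_le_tsum _ fun n _ => sq_nonneg _)⟩
    have j2 : Run7.h969.Dz.LH β ν x (X ν) := by
      refine ⟨hX ν hν.le, j1, Filter.Eventually.of_forall fun s hs => ?_⟩
      have j0 := Run7.h32.EE.summ (S ν hν.le) hs.le
      exact ⟨j0, fun t ht N => (Run7.h32.EE.energy_anti (S ν hν.le) N hs.le ht).trans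
        (j0.sum_le_tsum _ fun n _ => sq_nonneg _)⟩
    have j3 := (Run7.h32.EE.ee_lh hν h3 j2 ht).tsum_eq
    rw [(Run7.h32.EE.summ (S ν hν.le) ht).tsum_add (hsum ν hν.le t ht)] at j3
    have j4 : ∑' n, X ν n 0 ^ 2 = ∑' n, x n ^ 2 := by simp only [(hX ν hν.le).init]
    rw [j4] at j3
    have j5 : dissipated ν (X ν) t - (∑' n, x n ^ 2 - energy (X 0) t)
        = -(energy (X ν) t - energy (X 0) t) := by
      simp only [energy, dissipated]
      linarith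
    rw [j5, abs_neg]
    exact i2

end Pool.Agent.Results.MP_a38b17_an.ZerothLaw
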